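import Pool.Agent.helper23.BN.Basic

set_option autoImplicit false

/-!
Module A8: decaying `C²` functions belong to `D^{1,2}(ℝ^N)`.
-/

open MeasureTheory Filter Topology Set Metric
open scoped ContDiff Gradient RealInnerProductSpace ENNReal

noncomputable section
namespace Pool.Agent.helper13.BN
variable {N : ℕ}

namespace Decay

/-- coordinates of the gradient -/
lemma grad_coord (u : E N → ℝ) (x : E N) (i : Fin N) :
    (∇ u x) i = fderiv ℝ u x (EuclideanSpace.single i 1) := by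
  rw [← inner_gradient_left, EuclideanSpace.inner_single_right]
  simp

lemma inner_grad_eq_sum (u v : E N → ℝ) (x : E N) :
    ⟪∇ u x, ∇ v x⟫ = ∑ i : Fin N, fderiv ℝ u x (EuclideanSpace.single i 1) *
      fderiv ℝ v x (EuclideanSpace.single i 1) := by
  rw [PiLp.inner_apply]
  refine Finset.sum_congr rfl (fun i _ => ?_)
  rw [grad_coord, grad_coord]
  simp [mul_comm]

lemma continuous_grad {u : E N → ℝ} (hu : ContDiff ℝ 1 u) : Continuous fun x => ∇ u x := by
  have h := hu.continuous_fderiv (by norm_num)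
  exact (InnerProductSpace.toDual ℝ (E N)).symm.continuous.comp h

lemma grad_eq_zero_of_notMem {u : E N → ℝ} {x : E N} (hx : x ∉ tsupport u) : ∇ u x = 0 := by
  have h : fderiv ℝ u x = 0 := by
    by_contra hcon
    exact hx (tsupport_fderiv_subset ℝ (subset_tsupport _ hcon))
  unfold gradient
  rw [h, map_zero]

/-- Green's formula for a `C²` function and a test function -/
lemma green_test {u φ : E N → ℝ} (hu : ContDiff ℝ 2 u) (hφ : ContDiff ℝ 1 φ)
    (hs : HasCompactSupport φ) :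
    ∫ x, ⟪∇ u x, ∇ φ x⟫ = ∫ x, (- lap u x) * φ x := by
  have hu1 : ∀ v : E N, ContDiff ℝ 1 (fun y => fderiv ℝ u y v) := fun v =>
    (hu.fderiv_right (m := 1) (by norm_num)).clm_apply contDiff_const
  have hc1 : ∀ v : E N, Continuous (fun y => fderiv ℝ u y v) := fun v => (hu1 v).continuous
  have hc2 : ∀ v w : E N, Continuous (fun y => fderiv ℝ (fun z => fderiv ℝ u z v) y w) :=
    fun v w => ((hu1 v).continuous_fderiv (by norm_num)).clm_apply continuous_const
  have hcφ : ∀ v : E N, Continuous (fun y => fderiv ℝ φ y v) := fun v =>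
    (hφ.continuous_fderiv (by norm_num)).clm_apply continuous_const
  have hsφ : ∀ v : E N, HasCompactSupport (fun y => fderiv ℝ φ y v) := fun v => by
    have := hs.fderiv (𝕜 := ℝ)
    exact this.comp_left (g := fun L : E N →L[ℝ] ℝ => L v) rfl
  have hi1 : ∀ v w : E N, Integrable (fun y => fderiv ℝ u y v * fderiv ℝ φ y w) := fun v w =>
    ((hc1 v).mul (hcφ w)).integrable_of_hasCompactSupport ((hsφ w).mul_left)
  have hi2 : ∀ v w : E N, Integrable (fun y => fderiv ℝ (fun z => fderiv ℝ u z v) y w * φ y) :=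
    fun v w => ((hc2 v w).mul hφ.continuous).integrable_of_hasCompactSupport (hs.mul_left)
  have hi3 : ∀ v : E N, Integrable (fun y => fderiv ℝ u y v * φ y) :=
    fun v => ((hc1 v).mul hφ.continuous).integrable_of_hasCompactSupport (hs.mul_left)
  simp only [inner_grad_eq_sum]
  rw [integral_finsetSum _ (fun i _ => hi1 _ _)]
  have hstep : ∀ i : Fin N, ∫ x, fderiv ℝ u x (EuclideanSpace.single i 1) *
      fderiv ℝ φ x (EuclideanSpace.single i 1) =
      - ∫ x, fderiv ℝ (fun y => fderiv ℝ u y (EuclideanSpace.single i 1)) x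
        (EuclideanSpace.single i 1) * φ x := by
    intro i
    rw [integral_mul_fderiv_eq_neg_fderiv_mul_of_integrable (hi2 _ _) (hi1 _ _) (hi3 _)
      (fun x _ => (hu1 _).differentiable (by norm_num) x)
      (fun x _ => hφ.differentiable (by norm_num) x)]
  rw [Finset.sum_congr rfl (fun i _ => hstep i), Finset.sum_neg_distrib,
    ← integral_finsetSum _ (fun i _ => hi2 _ _), ← integral_neg]
  refine integral_congr_ae (Eventually.of_forall fun x => ?_)
  simp only [lap, neg_mul, Finset.sum_mul]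

/-- the standard cut-off of scale `n + 1` -/
def cutB (N : ℕ) : ContDiffBump (0 : E N) := ⟨1, 2, by norm_num, by norm_num⟩

def cutn (n : ℕ) (x : E N) : ℝ := cutB N (((n : ℝ) + 1)⁻¹ • x)

lemma cutn_contDiff (n : ℕ) : ContDiff ℝ ∞ (cutn (N := N) n) :=
  (cutB N).contDiff.comp (contDiff_const_smul (((n : ℝ) + 1)⁻¹))

lemma cutn_one {n : ℕ} {x : E N} (h : ‖x‖ < n + 1) : cutn n =ᶠ[𝓝 x] fun _ => 1 := by
  have ho : IsOpen {y : E N | ‖y‖ < n + 1} := isOpen_lt continuous_norm continuous_const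
  filter_upwards [ho.mem_nhds h] with y hy
  have hn : (0 : ℝ) < (n : ℝ) + 1 := by positivity
  refine (cutB N).one_of_mem_closedBall ?_
  rw [mem_closedBall, dist_zero_right, norm_smul, norm_inv, Real.norm_of_nonneg hn.le]
  change ((n : ℝ) + 1)⁻¹ * ‖y‖ ≤ 1
  rw [inv_mul_le_iff₀ hn]
  simpa using le_of_lt hy

lemma cutn_nonneg (n : ℕ) (x : E N) : 0 ≤ cutn n x := (cutB N).nonneg
lemma cutn_le_one (n : ℕ) (x : E N) : cutn n x ≤ 1 := (cutB N).le_one

lemma cutn_zero {n : ℕ} {x : E N} (h : 2 * ((n : ℝ) + 1) ≤ ‖x‖) : cutn n x = 0 := by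
  have hn : (0 : ℝ) < (n : ℝ) + 1 := by positivity
  refine (cutB N).zero_of_le_dist ?_
  rw [dist_zero_right, norm_smul, norm_inv, Real.norm_of_nonneg hn.le]
  change (2 : ℝ) ≤ ((n : ℝ) + 1)⁻¹ * ‖x‖
  rw [le_inv_mul_iff₀ hn]
  linarith

lemma cutn_tsupport (n : ℕ) : tsupport (cutn (N := N) n) ⊆ closedBall 0 (2 * ((n : ℝ) + 1)) := by
  refine closure_minimal (fun x hx => ?_) isClosed_closedBall
  rw [mem_closedBall, dist_zero_right]
  by_contra hcon
  exact hx (cutn_zero (le_of_lt (not_le.1 hcon)))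

lemma cutn_supp (n : ℕ) : HasCompactSupport (cutn (N := N) n) :=
  HasCompactSupport.of_support_subset_isCompact (isCompact_closedBall 0 (2 * ((n : ℝ) + 1)))
    ((subset_tsupport _).trans (cutn_tsupport n))

lemma cutn_grad_bound (N : ℕ) : ∃ K : ℝ, 0 ≤ K ∧ ∀ (n : ℕ) (x : E N),
    ‖∇ (cutn n) x‖ ≤ K / ((n : ℝ) + 1) := by
  have hc : Continuous (fun x => fderiv ℝ (cutB N) x) :=
    ((cutB N).contDiff (n := 1)).continuous_fderiv (by norm_num)
  have hs : HasCompactSupport (fun x => fderiv ℝ (cutB N) x) :=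
    (cutB N).hasCompactSupport.fderiv (𝕜 := ℝ)
  obtain ⟨K, hK⟩ := hc.bounded_above_of_compact_support hs
  have hK0 : 0 ≤ K := (norm_nonneg _).trans (hK 0)
  refine ⟨K, hK0, fun n x => ?_⟩
  have hn : (0 : ℝ) < (n : ℝ) + 1 := by positivity
  have h1 : ‖∇ (cutn n) x‖ = ‖fderiv ℝ (cutn (N := N) n) x‖ := by
    unfold gradient
    exact (InnerProductSpace.toDual ℝ (E N)).symm.norm_map _
  have h2 : HasFDerivAt (cutn (N := N) n)
      ((fderiv ℝ (cutB N) (((n : ℝ) + 1)⁻¹ • x)).comp
        (((n : ℝ) + 1)⁻¹ • ContinuousLinearMap.id ℝ (E N))) x := by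
    have ha : HasFDerivAt (fun y : E N => ((n : ℝ) + 1)⁻¹ • y)
      (((n : ℝ) + 1)⁻¹ • ContinuousLinearMap.id ℝ (E N)) x :=
      (((n : ℝ) + 1)⁻¹ • ContinuousLinearMap.id ℝ (E N)).hasFDerivAt
    have hb : HasFDerivAt (cutB N) (fderiv ℝ (cutB N) (((n : ℝ) + 1)⁻¹ • x))
        (((n : ℝ) + 1)⁻¹ • x) :=
      (((cutB N).contDiff (n := 1)).differentiable (by norm_num) _).hasFDerivAt
    exact hb.comp x ha
  rw [h1, h2.fderiv]
  refine (ContinuousLinearMap.opNorm_comp_le _ _).trans ?_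
  rw [norm_smul, norm_inv, Real.norm_of_nonneg hn.le, div_eq_mul_inv]
  refine mul_le_mul (hK _) ?_ (by positivity) hK0
  calc ((n : ℝ) + 1)⁻¹ * ‖ContinuousLinearMap.id ℝ (E N)‖ ≤ ((n : ℝ) + 1)⁻¹ * 1 := by
        gcongr; exact ContinuousLinearMap.norm_id_le
    _ = _ := mul_one _

lemma grad_mul {u v : E N → ℝ} {x : E N} (hu : DifferentiableAt ℝ u x)
    (hv : DifferentiableAt ℝ v x) : ∇ (fun y => u y * v y) x = u x • ∇ v x + v x • ∇ u x := by
  unfold gradient
  rw [fderiv_fun_mul hu hv, map_add]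
  simp

lemma memLp_pow {r : ℝ} (hr : (N : ℝ) < 2 * r) :
    MemLp (fun x : E N => (1 + ‖x‖) ^ (-r)) 2 volume := by
  have hm : AEStronglyMeasurable (fun x : E N => (1 + ‖x‖) ^ (-r)) volume := by
    apply Measurable.aestronglyMeasurable
    fun_prop
  rw [memLp_two_iff_integrable_sq hm]
  have h := integrable_one_add_norm (E := E N) (μ := volume) (r := 2 * r) (by simpa using hr)
  refine h.congr (Eventually.of_forall fun x => ?_)
  simp only
  rw [← Real.rpow_natCast, ← Real.rpow_mul (by positivity)]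
  congr 1
  push_cast
  ring

end Decay

open Decay in
/-- decaying `C²` functions belong to `D^{1,2}(ℝ^N)` -/
theorem weak_decay (hN : 3 ≤ N) {u : E N → ℝ} (hu : ContDiff ℝ 2 u) {C : ℝ}
    (h0 : ∀ x, |u x| ≤ C * (1 + ‖x‖) ^ (2 - (N : ℝ)))
    (h1 : ∀ x, ‖∇ u x‖ ≤ C * (1 + ‖x‖) ^ (1 - (N : ℝ)))
    (_h2 : ∀ x, |lap u x| ≤ C * (1 + ‖x‖) ^ (- (N : ℝ))) :
    ∃ w : LV N, Weak univ w (fun x => - lap u x) ∧
      fn w =ᵐ[volume] u ∧ (w : E N → E N) =ᵐ[volume] fun x => ∇ u x := by
  have hNr : (3 : ℝ) ≤ N := by exact_mod_cast hN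
  have hC : 0 ≤ C := by
    have := (abs_nonneg _).trans (h0 0)
    simpa using this
  have hu1 : ContDiff ℝ 1 u := hu.of_le (by norm_num)
  have hdom : MemLp (fun x : E N => (1 + ‖x‖) ^ (-((N : ℝ) - 1))) 2 volume :=
    memLp_pow (by linarith)
  have hgm : AEStronglyMeasurable (fun x => ∇ u x) volume :=
    (continuous_grad hu1).aestronglyMeasurable
  have hgL : MemLp (fun x => ∇ u x) 2 volume := by
    refine (hdom.const_mul C).of_le hgm (Eventually.of_forall fun x => ?_)
    rw [Real.norm_of_nonneg (by positivity)]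
    have := h1 x
    rwa [show (1 : ℝ) - N = -((N : ℝ) - 1) by ring] at this
  set w : LV N := hgL.toLp _ with hw
  have hwae : (w : E N → E N) =ᵐ[volume] fun x => ∇ u x := hgL.coeFn_toLp
  -- the approximations
  obtain ⟨K, hK0, hK⟩ := cutn_grad_bound N
  set v : ℕ → E N → ℝ := fun n x => cutn n x * u x with hv
  have hvC : ∀ n, ContDiff ℝ 1 (v n) := fun n =>
    ((cutn_contDiff n).of_le (by exact_mod_cast le_top)).mul hu1
  have hvS : ∀ n, HasCompactSupport (v n) := fun n => (cutn_supp n).mul_right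
  choose W hW using fun n => exists_isGrad (hvC n) (hvS n)
  have hmem : ∀ n, W n ∈ DD (univ : Set (E N)) ∧ fn (W n) =ᵐ[volume] v n := fun n =>
    mem_DD_C1 hN isOpen_univ (hvC n) (hvS n) (subset_univ _) (hW n)
  have hgv : ∀ n x, ∇ (v n) x = cutn n x • ∇ u x + u x • ∇ (cutn n) x := fun n x =>
    grad_mul ((cutn_contDiff n).differentiable (by simp) x) (hu1.differentiable (by norm_num) x)
  have hbound : ∀ n x, ‖∇ (v n) x - ∇ u x‖ ≤
      (C * (1 + 3 * K)) * (1 + ‖x‖) ^ (-((N : ℝ) - 1)) := by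
    intro n x
    have hx0 : (0 : ℝ) < 1 + ‖x‖ := by positivity
    have hn : (0 : ℝ) < (n : ℝ) + 1 := by positivity
    have e1 : ∇ (v n) x - ∇ u x = (cutn n x - 1) • ∇ u x + u x • ∇ (cutn n) x := by
      rw [hgv]; module
    have b1 : ‖(cutn n x - 1) • ∇ u x‖ ≤ C * (1 + ‖x‖) ^ (-((N : ℝ) - 1)) := by
      rw [norm_smul]
      have a1 : ‖cutn n x - 1‖ ≤ 1 := by
        rw [Real.norm_eq_abs, abs_le]
        constructor <;> linarith [cutn_nonneg n x, cutn_le_one n x]
      have a2 := h1 x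
      rw [show (1 : ℝ) - N = -((N : ℝ) - 1) by ring] at a2
      calc _ ≤ 1 * ‖∇ u x‖ := by gcongr
        _ ≤ _ := by rw [one_mul]; exact a2
    have b2 : ‖u x • ∇ (cutn n) x‖ ≤ C * (3 * K) * (1 + ‖x‖) ^ (-((N : ℝ) - 1)) := by
      by_cases hx : ‖x‖ ≤ 2 * ((n : ℝ) + 1)
      · rw [norm_smul, Real.norm_eq_abs]
        have a3 : ‖∇ (cutn (N := N) n) x‖ ≤ 3 * K * (1 + ‖x‖)⁻¹ := by
          refine (hK n x).trans ?_
          rw [div_eq_mul_inv, mul_comm 3 K, mul_assoc]
          refine mul_le_mul_of_nonneg_left ?_ hK0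
          rw [← div_eq_mul_inv, le_div_iff₀ hx0, inv_mul_le_iff₀ hn]
          linarith
        have a4 : (1 + ‖x‖) ^ (2 - (N : ℝ)) * (1 + ‖x‖)⁻¹ = (1 + ‖x‖) ^ (-((N : ℝ) - 1)) := by
          rw [← Real.rpow_neg_one, ← Real.rpow_add hx0]
          congr 1; ring
        calc |u x| * ‖∇ (cutn (N := N) n) x‖
            ≤ (C * (1 + ‖x‖) ^ (2 - (N : ℝ))) * (3 * K * (1 + ‖x‖)⁻¹) := by
              gcongr
              · exact h0 x
          _ = C * (3 * K) * ((1 + ‖x‖) ^ (2 - (N : ℝ)) * (1 + ‖x‖)⁻¹) := by ring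
          _ = _ := by rw [a4]
      · have : x ∉ tsupport (cutn (N := N) n) := fun h => hx (by
          have := cutn_tsupport n h
          rwa [mem_closedBall, dist_zero_right] at this)
        rw [grad_eq_zero_of_notMem this, smul_zero, norm_zero]
        positivity
    rw [e1]
    refine (norm_add_le _ _).trans ?_
    have := add_le_add b1 b2
    refine this.trans (le_of_eq ?_)
    ring
  have hzero : ∀ x, ∀ᶠ n in atTop, ∇ (v n) x - ∇ u x = 0 := by
    intro x
    obtain ⟨m, hm⟩ := exists_nat_gt ‖x‖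
    filter_upwards [eventually_ge_atTop m] with n hn
    have hlt : ‖x‖ < n + 1 := by
      have : (m : ℝ) ≤ n := by exact_mod_cast hn
      linarith
    have he : v n =ᶠ[𝓝 x] u := by
      filter_upwards [cutn_one hlt] with y hy
      simp only [hv, hy, one_mul]
    have : ∇ (v n) x = ∇ u x := by
      unfold gradient
      rw [he.fderiv_eq]
    rw [this, sub_self]
  have hvL : ∀ n, MemLp (fun x => ∇ (v n) x) 2 volume := fun n =>
    (memLp_congr_ae (hW n)).1 (Lp.memLp (W n))
  have hWeq : ∀ n, W n = (hvL n).toLp _ := fun n => by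
    refine Lp.ext ?_
    exact (hW n).trans ((hvL n).coeFn_toLp).symm
  have hlim : Tendsto W atTop (𝓝 w) := by
    have hfun : W = fun n => (hvL n).toLp _ := funext hWeq
    rw [hfun, hw, Lp.tendsto_Lp_iff_tendsto_eLpNorm'']
    have hsq : ∀ n, eLpNorm ((fun x => ∇ (v n) x) - fun x => ∇ u x) 2 volume =
        (∫⁻ x, ‖∇ (v n) x - ∇ u x‖ₑ ^ (2 : ℝ)) ^ (1 / (2 : ℝ)) := by
      intro n
      rw [eLpNorm_eq_lintegral_rpow_enorm_toReal (by norm_num) (by norm_num)]
      simp
    simp only [hsq]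
    have hz : (0 : ℝ≥0∞) = (0 : ℝ≥0∞) ^ (1 / (2 : ℝ)) := by
      rw [ENNReal.zero_rpow_of_pos (by norm_num)]
    rw [hz]
    refine Tendsto.ennrpow_const _ ?_
    have hdc := tendsto_lintegral_of_dominated_convergence
      (μ := (volume : Measure (E N)))
      (F := fun n x => ‖∇ (v n) x - ∇ u x‖ₑ ^ (2 : ℝ)) (f := fun _ => 0)
      (fun x => ‖(C * (1 + 3 * K)) * (1 + ‖x‖) ^ (-((N : ℝ) - 1))‖ₑ ^ (2 : ℝ))
      (fun n => ?_) (fun n => ?_) ?_ ?_
    · simpa using hdc
    · exact (((continuous_grad (hvC n)).sub (continuous_grad hu1)).enorm.measurable.pow_const _)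
    · refine Eventually.of_forall fun x => ?_
      refine ENNReal.rpow_le_rpow ?_ (by norm_num)
      rw [enorm_le_iff_norm_le]
      refine (hbound n x).trans (le_abs_self _)
    · have := (hdom.const_mul (C * (1 + 3 * K))).eLpNorm_lt_top
      rw [eLpNorm_eq_lintegral_rpow_enorm_toReal (by norm_num) (by norm_num)] at this
      have h3 := (ENNReal.rpow_lt_top_iff_of_pos (by norm_num)).1 this
      simpa using h3.ne
    · refine Eventually.of_forall fun x => ?_
      refine tendsto_const_nhds.congr' ?_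
      filter_upwards [hzero x] with n hn
      rw [hn]; simp
  obtain ⟨hwD, hnq⟩ := fn_tendsto hN (fun n => (hmem n).1) hlim
  have hfnu : fn w =ᵐ[volume] u := by
    have hM : ∀ n, MemLp (fun x => fn (W n) x - fn w x) (ENNReal.ofReal (ts N)) volume := by
      intro n
      have ha := (sobolev hN (hmem n).1).1
      have hb := (sobolev hN hwD).1
      unfold Mq at ha hb
      rw [Measure.restrict_univ] at ha hb
      exact ha.sub hb
    have hts : (0 : ℝ) < ts N := by
      unfold ts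
      have : (0 : ℝ) < (N : ℝ) - 2 := by linarith
      positivity
    have hE : Tendsto (fun n => eLpNorm (fn (W n) - fn w) (ENNReal.ofReal (ts N)) volume)
        atTop (𝓝 0) := by
      have h3 : ∀ n, eLpNorm (fn (W n) - fn w) (ENNReal.ofReal (ts N)) volume =
          ENNReal.ofReal (nq (ts N) univ (fun x => fn (W n) x - fn w x)) := by
        intro n
        unfold nq
        rw [Measure.restrict_univ, ENNReal.ofReal_toReal (hM n).eLpNorm_lt_top.ne]
        rfl
      simp only [h3]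
      have := ENNReal.tendsto_ofReal hnq
      simpa using this
    have hmeas := tendstoInMeasure_of_tendsto_eLpNorm (by simpa using hts)
      (fun n => fn_meas (W n)) (fn_meas w) hE
    obtain ⟨ns, hns, hae⟩ := hmeas.exists_seq_tendsto_ae
    have hall : ∀ᵐ x, ∀ n, fn (W n) x = v n x := ae_all_iff.2 fun n => (hmem n).2
    filter_upwards [hae, hall] with x hx hx2
    have ht : Tendsto (fun i => v (ns i) x) atTop (𝓝 (u x)) := by
      refine tendsto_const_nhds.congr' ?_
      obtain ⟨m, hm⟩ := exists_nat_gt ‖x‖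
      filter_upwards [eventually_ge_atTop m] with n hn
      have hlt : ‖x‖ < (ns n : ℝ) + 1 := by
        have h5 : n ≤ ns n := hns.le_apply
        have : (m : ℝ) ≤ ns n := by exact_mod_cast hn.trans h5
        linarith
      simp only [hv]
      rw [(cutn_one hlt).eq_of_nhds, one_mul]
    refine tendsto_nhds_unique ?_ ht
    refine hx.congr (fun i => ?_)
    rw [hx2]
  refine ⟨w, ⟨hwD, fun φ Φ hφ hΦ => ?_⟩, hfnu, hwae⟩
  rw [L2.inner_def, ← green_test hu (hφ.1.of_le (by exact_mod_cast le_top)) hφ.2.1]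
  refine integral_congr_ae ?_
  filter_upwards [hwae, hΦ] with x hx hx2
  rw [hx, hx2]

end Pool.Agent.helper13.BN
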