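import Pool.Agent.helper23.BN.Basic

set_option autoImplicit false

/-!
Module A9: the scaling and translation isometries of `D^{1,2}(ℝ^N)`.
-/

open MeasureTheory Filter Topology Set Metric
open scoped ContDiff Gradient RealInnerProductSpace ENNReal

noncomputable section
namespace Pool.Agent.helper13.BN
variable {N : ℕ}

namespace Scale

/-- the affine map `x ↦ (x - ξ)/μ` -/
def sc (μ : ℝ) (ξ x : E N) : E N := μ⁻¹ • (x - ξ)

lemma sc_sc {μ : ℝ} (hμ : 0 < μ) (ξ x : E N) : sc μ⁻¹ (-(μ⁻¹ • ξ)) (sc μ ξ x) = x := by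
  unfold sc
  rw [inv_inv, sub_neg_eq_add, ← smul_add, smul_smul, mul_inv_cancel₀ hμ.ne', one_smul,
    sub_add_cancel]

lemma sc_sc' {μ : ℝ} (hμ : 0 < μ) (ξ x : E N) : sc μ ξ (sc μ⁻¹ (-(μ⁻¹ • ξ)) x) = x := by
  unfold sc
  rw [inv_inv, sub_neg_eq_add, smul_add, smul_smul, mul_inv_cancel₀ hμ.ne', one_smul,
    add_sub_cancel_right, smul_smul, inv_mul_cancel₀ hμ.ne', one_smul]

lemma continuous_sc (μ : ℝ) (ξ : E N) : Continuous (sc μ ξ) := by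
  unfold sc; fun_prop

lemma sc_contDiff (μ : ℝ) (ξ : E N) {n : WithTop ℕ∞} : ContDiff ℝ n (sc μ ξ) :=
  (contDiff_const_smul _).comp (contDiff_id.sub contDiff_const)

/-- the affine map as a homeomorphism -/
def scH {μ : ℝ} (hμ : 0 < μ) (ξ : E N) : E N ≃ₜ E N where
  toFun := sc μ ξ
  invFun := sc μ⁻¹ (-(μ⁻¹ • ξ))
  left_inv := sc_sc hμ ξ
  right_inv := sc_sc' hμ ξ
  continuous_toFun := continuous_sc _ _
  continuous_invFun := continuous_sc _ _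

lemma map_sc {μ : ℝ} (hμ : 0 < μ) (ξ : E N) :
    Measure.map (sc μ ξ) (volume : Measure (E N)) = ENNReal.ofReal (μ ^ N) • volume := by
  have h1 : sc μ ξ = (fun y : E N => μ⁻¹ • y) ∘ (fun x => x - ξ) := rfl
  rw [h1, ← Measure.map_map (by fun_prop) (by fun_prop), map_sub_right_eq_self,
    Measure.map_addHaar_smul _ (inv_ne_zero hμ.ne')]
  congr 2
  rw [finrank_euclideanSpace_fin, inv_pow, inv_inv, abs_of_pos (by positivity)]

lemma sc_qmp {μ : ℝ} (hμ : 0 < μ) (ξ : E N) :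
    Measure.QuasiMeasurePreserving (sc μ ξ) (volume : Measure (E N)) volume := by
  refine ⟨(continuous_sc _ _).measurable, ?_⟩
  rw [map_sc hμ]
  exact Measure.smul_absolutelyContinuous

lemma ae_sc {μ : ℝ} (hμ : 0 < μ) (ξ : E N) {F : Type*} {f g : E N → F}
    (h : f =ᵐ[volume] g) : (fun x => f (sc μ ξ x)) =ᵐ[volume] fun x => g (sc μ ξ x) :=
  (sc_qmp hμ ξ).ae_eq_comp h

lemma eLpNorm_sc {μ : ℝ} (hμ : 0 < μ) (ξ : E N) {F : Type*} [NormedAddCommGroup F]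
    {f : E N → F} (hf : AEStronglyMeasurable f volume) (q : ℝ≥0∞) (_hq0 : q ≠ 0) (hq : q ≠ ⊤) :
    eLpNorm (fun x => f (sc μ ξ x)) q volume =
      ENNReal.ofReal (μ ^ N) ^ (1 / q.toReal) * eLpNorm f q volume := by
  have h1 : eLpNorm (f ∘ sc μ ξ) q volume = eLpNorm f q (Measure.map (sc μ ξ) volume) := by
    rw [eLpNorm_map_measure]
    · rw [map_sc hμ]
      exact hf.mono_ac Measure.smul_absolutelyContinuous
    · exact (continuous_sc _ _).measurable.aemeasurable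
  change eLpNorm (f ∘ sc μ ξ) q volume = _
  rw [h1, map_sc hμ, eLpNorm_smul_measure_of_ne_top hq]
  simp

lemma memLp_sc {μ : ℝ} (hμ : 0 < μ) (ξ : E N) {F : Type*} [NormedAddCommGroup F]
    {f : E N → F} {q : ℝ≥0∞} (hf : MemLp f q volume) (hq0 : q ≠ 0) (hq : q ≠ ⊤) :
    MemLp (fun x => f (sc μ ξ x)) q volume := by
  refine ⟨hf.1.comp_quasiMeasurePreserving (sc_qmp hμ ξ), ?_⟩
  rw [eLpNorm_sc hμ ξ hf.1 q hq0 hq]
  exact ENNReal.mul_lt_top (ENNReal.rpow_lt_top_of_nonneg (by positivity) ENNReal.ofReal_ne_top)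
    hf.2

lemma integral_sc {μ : ℝ} (hμ : 0 < μ) (ξ : E N) (f : E N → ℝ) :
    ∫ x, f (sc μ ξ x) = μ ^ N * ∫ y, f y := by
  unfold sc
  rw [integral_sub_right_eq_self (fun x => f (μ⁻¹ • x)) ξ, Measure.integral_comp_smul,
    finrank_euclideanSpace_fin, inv_pow, inv_inv, abs_of_pos (by positivity), smul_eq_mul]

lemma memLp_scal {μ : ℝ} (hμ : 0 < μ) (ξ : E N) (w : LV N) :
    MemLp (fun x => μ ^ (-(N : ℝ) / 2) • w (sc μ ξ x)) 2 volume := by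
  have h := (memLp_sc hμ ξ (Lp.memLp w) (by norm_num) (by norm_num)).const_smul
    (μ ^ (-(N : ℝ) / 2))
  exact h

/-- scaling as a map on `LV` -/
def scalF {μ : ℝ} (hμ : 0 < μ) (ξ : E N) (w : LV N) : LV N := (memLp_scal hμ ξ w).toLp _

lemma scalF_ae {μ : ℝ} (hμ : 0 < μ) (ξ : E N) (w : LV N) :
    (scalF hμ ξ w : E N → E N) =ᵐ[volume] fun x => μ ^ (-(N : ℝ) / 2) • w (sc μ ξ x) :=
  (memLp_scal hμ ξ w).coeFn_toLp

lemma norm_scalF {μ : ℝ} (hμ : 0 < μ) (ξ : E N) (w : LV N) : ‖scalF hμ ξ w‖ = ‖w‖ := by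
  unfold scalF
  rw [Lp.norm_toLp, Lp.norm_def]
  have h1 := eLpNorm_const_smul (μ ^ (-(N : ℝ) / 2)) (fun x => w (sc μ ξ x)) 2
    (volume : Measure (E N))
  have h2 := eLpNorm_sc hμ ξ (Lp.memLp w).1 2 (by norm_num) (by norm_num)
  have h3 : (fun x => μ ^ (-(N : ℝ) / 2) • w (sc μ ξ x)) =
      (μ ^ (-(N : ℝ) / 2)) • (fun x => w (sc μ ξ x)) := rfl
  rw [h3, h1, h2, ← mul_assoc]
  have h4 : ‖μ ^ (-(N : ℝ) / 2)‖ₑ * ENNReal.ofReal (μ ^ N) ^ (1 / ENNReal.toReal 2) = 1 := by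
    rw [Real.enorm_of_nonneg (by positivity), ENNReal.ofReal_rpow_of_nonneg (by positivity)
      (by positivity), ← ENNReal.ofReal_mul (by positivity), ← Real.rpow_natCast,
      ← Real.rpow_mul hμ.le, ← Real.rpow_add hμ]
    simp only [ENNReal.toReal_ofNat]
    rw [show -(N : ℝ) / 2 + N * (1 / 2) = 0 by ring, Real.rpow_zero, ENNReal.ofReal_one]
  rw [h4, one_mul]

lemma scalF_add {μ : ℝ} (hμ : 0 < μ) (ξ : E N) (w w' : LV N) :
    scalF hμ ξ (w + w') = scalF hμ ξ w + scalF hμ ξ w' := by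
  refine Lp.ext ?_
  filter_upwards [scalF_ae hμ ξ (w + w'), scalF_ae hμ ξ w, scalF_ae hμ ξ w',
    Lp.coeFn_add (scalF hμ ξ w) (scalF hμ ξ w'), ae_sc hμ ξ (Lp.coeFn_add w w')]
    with x h1 h2 h3 h4 h5
  rw [h1, h4, h5, Pi.add_apply, Pi.add_apply, h2, h3, smul_add]

lemma scalF_smul {μ : ℝ} (hμ : 0 < μ) (ξ : E N) (c : ℝ) (w : LV N) :
    scalF hμ ξ (c • w) = c • scalF hμ ξ w := by
  refine Lp.ext ?_
  filter_upwards [scalF_ae hμ ξ (c • w), scalF_ae hμ ξ w,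
    Lp.coeFn_smul c (scalF hμ ξ w), ae_sc hμ ξ (Lp.coeFn_smul c w)]
    with x h1 h2 h4 h5
  rw [h1, h4, h5, Pi.smul_apply, Pi.smul_apply, h2, smul_comm]

lemma scalF_scalF {μ : ℝ} (hμ : 0 < μ) (ξ : E N) (w : LV N) :
    scalF (inv_pos.2 hμ) (-(μ⁻¹ • ξ)) (scalF hμ ξ w) = w := by
  refine Lp.ext ?_
  filter_upwards [scalF_ae (inv_pos.2 hμ) (-(μ⁻¹ • ξ)) (scalF hμ ξ w),
    ae_sc (inv_pos.2 hμ) (-(μ⁻¹ • ξ)) (scalF_ae hμ ξ w)] with x h1 h2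
  rw [h1, h2, sc_sc' hμ, smul_smul, ← Real.mul_rpow (inv_pos.2 hμ).le hμ.le,
    inv_mul_cancel₀ hμ.ne', Real.one_rpow, one_smul]

lemma scalF_scalF' {μ : ℝ} (hμ : 0 < μ) (ξ : E N) (w : LV N) :
    scalF hμ ξ (scalF (inv_pos.2 hμ) (-(μ⁻¹ • ξ)) w) = w := by
  refine Lp.ext ?_
  filter_upwards [scalF_ae hμ ξ (scalF (inv_pos.2 hμ) (-(μ⁻¹ • ξ)) w),
    ae_sc hμ ξ (scalF_ae (inv_pos.2 hμ) (-(μ⁻¹ • ξ)) w)] with x h1 h2
  rw [h1, h2, sc_sc hμ, smul_smul, ← Real.mul_rpow hμ.le (inv_pos.2 hμ).le,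
    mul_inv_cancel₀ hμ.ne', Real.one_rpow, one_smul]

/-- scaling as a linear isometry equivalence -/
def scalE {μ : ℝ} (hμ : 0 < μ) (ξ : E N) : LV N ≃ₗᵢ[ℝ] LV N where
  toFun := scalF hμ ξ
  invFun := scalF (inv_pos.2 hμ) (-(μ⁻¹ • ξ))
  map_add' := scalF_add hμ ξ
  map_smul' := scalF_smul hμ ξ
  left_inv := scalF_scalF hμ ξ
  right_inv := scalF_scalF' hμ ξ
  norm_map' := norm_scalF hμ ξ

lemma scalE_apply {μ : ℝ} (hμ : 0 < μ) (ξ : E N) (w : LV N) :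
    scalE hμ ξ w = scalF hμ ξ w := rfl

lemma scalE_symm_apply {μ : ℝ} (hμ : 0 < μ) (ξ : E N) (w : LV N) :
    (scalE hμ ξ).symm w = scalF (inv_pos.2 hμ) (-(μ⁻¹ • ξ)) w := rfl

/-- scaling of a test function -/
lemma test_sc {μ : ℝ} (hμ : 0 < μ) (ξ : E N) {φ : E N → ℝ} (h : IsTest univ φ) (c : ℝ) :
    IsTest univ (fun x => c * φ (sc μ ξ x)) := by
  refine ⟨contDiff_const.mul (h.1.comp (sc_contDiff μ ξ)), ?_, subset_univ _⟩
  have : HasCompactSupport (fun x => φ (sc μ ξ x)) := by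
    have := h.2.1.comp_homeomorph (scH hμ ξ)
    exact this
  exact this.mul_left

lemma grad_sc {μ : ℝ} (ξ : E N) {φ : E N → ℝ} (h : ContDiff ℝ 1 φ) (c : ℝ)
    (x : E N) : ∇ (fun x => c * φ (sc μ ξ x)) x = (c * μ⁻¹) • ∇ φ (sc μ ξ x) := by
  have h1 : HasFDerivAt (sc μ ξ) (μ⁻¹ • ContinuousLinearMap.id ℝ (E N)) x := by
    have h2 : HasFDerivAt (fun y : E N => y - ξ) (ContinuousLinearMap.id ℝ (E N)) x :=
      (hasFDerivAt_id x).sub_const ξ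
    exact h2.const_smul μ⁻¹
  have h3 : HasFDerivAt (fun x => c * φ (sc μ ξ x))
      (c • ((fderiv ℝ φ (sc μ ξ x)).comp (μ⁻¹ • ContinuousLinearMap.id ℝ (E N)))) x :=
    (((h.differentiable (by norm_num) (sc μ ξ x)).hasFDerivAt).comp x h1).const_mul c
  unfold gradient
  rw [h3.fderiv, ContinuousLinearMap.comp_smul, ContinuousLinearMap.comp_id, smul_smul]
  simp

lemma isGrad_sc {μ : ℝ} (hμ : 0 < μ) (ξ : E N) {φ : E N → ℝ} (h : IsTest univ φ)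
    {W : LV N} (hW : IsGrad W φ) :
    IsGrad (scalF hμ ξ W) (fun x => μ ^ (-cc N) * φ (sc μ ξ x)) := by
  unfold IsGrad
  filter_upwards [scalF_ae hμ ξ W, ae_sc hμ ξ hW] with x h1 h2
  rw [h1, h2, grad_sc ξ (h.1.of_le (by exact_mod_cast le_top))]
  congr 1
  rw [← Real.rpow_neg_one, ← Real.rpow_add hμ]
  congr 1
  unfold cc
  ring

lemma scalF_mem {μ : ℝ} (hμ : 0 < μ) (ξ : E N) {w : LV N} (hw : w ∈ DD (univ : Set (E N))) :
    scalF hμ ξ w ∈ DD (univ : Set (E N)) := by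
  rw [DD_seq] at hw ⊢
  obtain ⟨φ, W, h1, h2⟩ := hw
  refine ⟨fun n x => μ ^ (-cc N) * φ n (sc μ ξ x), fun n => scalF hμ ξ (W n),
    fun n => ⟨test_sc hμ ξ (h1 n).1 _, isGrad_sc hμ ξ (h1 n).1 (h1 n).2⟩, ?_⟩
  exact ((scalE hμ ξ).continuous.tendsto w).comp h2

lemma isFn_sc (hN : 3 ≤ N) {μ : ℝ} (hμ : 0 < μ) (ξ : E N) {w : LV N} {u : E N → ℝ}
    (h : IsFn w u) : IsFn (scalF hμ ξ w) (fun x => μ ^ (-cc N) * u (sc μ ξ x)) := by
  obtain ⟨hm, φ, W, h1, h2, h3⟩ := h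
  refine ⟨(hm.comp_quasiMeasurePreserving (sc_qmp hμ ξ)).const_mul _,
    fun n x => μ ^ (-cc N) * φ n (sc μ ξ x), fun n => scalF hμ ξ (W n),
    fun n => ⟨test_sc hμ ξ (h1 n).1 _, isGrad_sc hμ ξ (h1 n).1 (h1 n).2⟩,
    ((scalE hμ ξ).continuous.tendsto w).comp h2, ?_⟩
  have hNr : (3 : ℝ) ≤ N := by exact_mod_cast hN
  have hts : (0 : ℝ) < ts N := by
    unfold ts
    have : (0 : ℝ) < (N : ℝ) - 2 := by linarith
    positivity
  have h4 : ∀ n, eLpNorm (fun x => μ ^ (-cc N) * φ n (sc μ ξ x) - μ ^ (-cc N) * u (sc μ ξ x))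
      (ENNReal.ofReal (ts N)) volume = ‖μ ^ (-cc N)‖ₑ *
        (ENNReal.ofReal (μ ^ N) ^ (1 / (ENNReal.ofReal (ts N)).toReal) *
          eLpNorm (fun x => φ n x - u x) (ENNReal.ofReal (ts N)) volume) := by
    intro n
    have h5 : (fun x => μ ^ (-cc N) * φ n (sc μ ξ x) - μ ^ (-cc N) * u (sc μ ξ x)) =
        (μ ^ (-cc N)) • (fun x => φ n (sc μ ξ x) - u (sc μ ξ x)) := by
      funext x
      simp only [Pi.smul_apply, smul_eq_mul]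
      ring
    rw [h5, eLpNorm_const_smul]
    congr 1
    exact eLpNorm_sc (f := fun x => φ n x - u x) hμ ξ
      ((h1 n).1.1.continuous.aestronglyMeasurable.sub hm) _
      (by simpa using hts) ENNReal.ofReal_ne_top
  simp only [h4]
  have h6 : (0 : ℝ≥0∞) = ‖μ ^ (-cc N)‖ₑ *
      (ENNReal.ofReal (μ ^ N) ^ (1 / (ENNReal.ofReal (ts N)).toReal) * 0) := by simp
  rw [h6]
  refine ENNReal.Tendsto.const_mul (ENNReal.Tendsto.const_mul h3 (Or.inr ?_)) (Or.inr ?_)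
  · exact ENNReal.rpow_ne_top_of_nonneg (by positivity) ENNReal.ofReal_ne_top
  · exact enorm_ne_top

end Scale

open Scale in
/-- scaling isometry: `(scal μ ξ w)(x) = μ^{-N/2} w((x-ξ)/μ)` -/
theorem exists_scal {μ : ℝ} (hμ : 0 < μ) (ξ : E N) : ∃ A : LV N ≃ₗᵢ[ℝ] LV N,
    (∀ w : LV N, (A w : E N → E N) =ᵐ[volume]
      fun x => μ ^ (-(N : ℝ) / 2) • w (μ⁻¹ • (x - ξ))) ∧
    (∀ w : LV N, w ∈ DD univ ↔ A w ∈ DD univ) ∧
    (3 ≤ N → ∀ w ∈ DD (univ : Set (E N)), fn (A w) =ᵐ[volume]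
      fun x => μ ^ (-cc N) * fn w (μ⁻¹ • (x - ξ))) ∧
    (3 ≤ N → ∀ (w : LV N) (g : E N → ℝ), Mq (td N) univ g → Weak univ w g →
      Weak univ (A w) (fun x => μ ^ (-cc N - 2) * g (μ⁻¹ • (x - ξ)))) := by
  refine ⟨scalE hμ ξ, scalF_ae hμ ξ, fun w => ⟨scalF_mem hμ ξ, fun h => ?_⟩,
    fun hN w hw => ?_, fun hN w g _ hw => ⟨scalF_mem hμ ξ hw.1, fun φ W hφ hW => ?_⟩⟩
  · have := scalF_mem (inv_pos.2 hμ) (-(μ⁻¹ • ξ)) h
    rwa [scalE_apply, scalF_scalF] at this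
  · exact fn_ae hN (isFn_sc hN hμ ξ (isFn_fn hN hw))
  · have h1 : ⟪scalE hμ ξ w, W⟫ = ⟪w, (scalE hμ ξ).symm W⟫ := by
      rw [← (scalE hμ ξ).inner_map_map w, (scalE hμ ξ).apply_symm_apply]
    rw [h1, scalE_symm_apply, hw.2 _ _ (test_sc (inv_pos.2 hμ) (-(μ⁻¹ • ξ)) hφ _)
      (isGrad_sc (inv_pos.2 hμ) (-(μ⁻¹ • ξ)) hφ hW)]
    have h2 := integral_sc hμ ξ (fun y => g y * (μ⁻¹ ^ (-cc N) * φ (sc μ⁻¹ (-(μ⁻¹ • ξ)) y)))
    simp only [sc_sc hμ] at h2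
    have h3 : ∀ x, μ ^ (-cc N - 2) * g (μ⁻¹ • (x - ξ)) * φ x =
        (μ ^ N)⁻¹ * (g (sc μ ξ x) * (μ⁻¹ ^ (-cc N) * φ x)) := by
      intro x
      have h4 : μ ^ (-cc N - 2) = (μ ^ N)⁻¹ * μ⁻¹ ^ (-cc N) := by
        rw [Real.inv_rpow hμ.le, ← Real.rpow_neg hμ.le, neg_neg, ← Real.rpow_natCast,
          ← Real.rpow_neg hμ.le, ← Real.rpow_add hμ]
        congr 1
        unfold cc
        ring
      rw [h4]
      unfold sc
      ring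
    simp only [h3]
    rw [integral_const_mul, h2, ← mul_assoc, inv_mul_cancel₀ (by positivity), one_mul]

end Pool.Agent.helper13.BN
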